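import Pool.Agent.Helper307.AO.Growth

set_option autoImplicit false

open FreeGroup Filter Topology

namespace PWF

variable {r : ℕ}

/-- the conjugacy classes in the automorphic orbit of `u` of cyclic length `n` -/
def cls (u : FreeGroup (Fin r)) (n : ℕ) : Set (ConjClasses (FreeGroup (Fin r))) :=
  {c | (∃ φ : FreeGroup (Fin r) ≃* FreeGroup (Fin r), ConjClasses.mk (φ u) = c) ∧
    ∃ L : List (Fin r × Bool), IsCyclicallyReduced L ∧ L.length = n ∧ ConjClasses.mk (mk L) = c}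

/-- the cyclically reduced words of length `n` in the automorphic orbit of `u` -/
def lst (u : FreeGroup (Fin r)) (n : ℕ) : Set (List (Fin r × Bool)) :=
  {L | IsCyclicallyReduced L ∧ L.length = n ∧
    ∃ φ : FreeGroup (Fin r) ≃* FreeGroup (Fin r), φ u = mk L}

theorem len_finite (n : ℕ) : {L : List (Fin r × Bool) | L.length = n}.Finite :=
  List.finite_length_eq _ n

theorem lst_finite (u : FreeGroup (Fin r)) (n : ℕ) : (lst u n).Finite :=
  (len_finite n).subset fun _ h => h.2.1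

theorem cls_finite (u : FreeGroup (Fin r)) (n : ℕ) : (cls u n).Finite := by
  refine ((len_finite (r := r) n).image (fun L => ConjClasses.mk (mk L))).subset ?_
  rintro c ⟨_, L, _, h2, h3⟩
  exact ⟨L, h2, h3⟩

theorem lst_card (u : FreeGroup (Fin r)) (n : ℕ) :
    (lst u n).ncard ≤ (cls u n).ncard * (n + 1) := by
  classical
  have hch : ∀ c ∈ cls u n, ∃ L : List (Fin r × Bool), IsCyclicallyReduced L ∧ L.length = n ∧
      ConjClasses.mk (mk L) = c := fun c hc => hc.2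
  choose! R hR using hch
  set F := (cls_finite u n).toFinset with hF
  have hsub : lst u n ⊆
      ((F.biUnion fun c => (Finset.range (n + 1)).image fun i => (R c).rotate i :
        Finset (List (Fin r × Bool))) : Set (List (Fin r × Bool))) := by
    rintro L ⟨h1, h2, φ, h3⟩
    have hc : ConjClasses.mk (mk L) ∈ cls u n := ⟨⟨φ, by rw [h3]⟩, L, h1, h2, rfl⟩
    obtain ⟨e1, e2, e3⟩ := hR _ hc
    obtain ⟨f, hf⟩ := isConj_iff.1 (ConjClasses.mk_eq_mk_iff_isConj.1 e3)
    obtain ⟨i, hi, hi'⟩ := H307AO.conj_rotation L (R (ConjClasses.mk (mk L))) h1 e1 f hf.symm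
    rw [Finset.mem_coe, Finset.mem_biUnion]
    refine ⟨_, (cls_finite u n).mem_toFinset.2 hc, ?_⟩
    rw [Finset.mem_image]
    exact ⟨i, Finset.mem_range.2 (by omega), hi'.symm⟩
  refine (Set.ncard_le_ncard hsub (Finset.finite_toSet _)).trans ?_
  rw [Set.ncard_coe_finset]
  refine Finset.card_biUnion_le.trans ?_
  have h1 : ∀ c ∈ F, ((Finset.range (n + 1)).image fun i => (R c).rotate i).card ≤ n + 1 := by
    intro c _
    refine Finset.card_image_le.trans ?_
    rw [Finset.card_range]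
  refine (Finset.sum_le_sum h1).trans ?_
  rw [Finset.sum_const, smul_eq_mul, hF, Set.ncard_eq_toFinset_card _ (cls_finite u n)]

/-- the ball -/
def ball (u : FreeGroup (Fin r)) (n : ℕ) : Set (FreeGroup (Fin r)) :=
  {v | (∃ φ : FreeGroup (Fin r) ≃* FreeGroup (Fin r), φ u = v) ∧ (FreeGroup.toWord v).length ≤ n}

theorem ball_card [Nonempty (Fin r)] (u : FreeGroup (Fin r)) (n : ℕ) :
    (ball u n).Finite ∧ (ball u n).ncard ≤
      ∑ c ∈ Finset.range (n + 1), ∑ m ∈ (Finset.range (n + 1)).filter (fun m => 2 * c + m ≤ n),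
        (2 * r * (2 * r - 1) ^ c) * ((cls u m).ncard * (m + 1)) := by
  classical
  set S : Finset (FreeGroup (Fin r)) := (Finset.range (n + 1)).biUnion fun c =>
    ((Finset.range (n + 1)).filter (fun m => 2 * c + m ≤ n)).biUnion fun m =>
      ((H307PP.RR (X := Fin r) c) ×ˢ (lst_finite u m).toFinset).image
        fun q : List (Fin r × Bool) × List (Fin r × Bool) =>
          FreeGroup.mk q.1 * FreeGroup.mk q.2 * (FreeGroup.mk q.1)⁻¹ with hS
  have hsub : ball u n ⊆ (S : Set (FreeGroup (Fin r))) := by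
    rintro g ⟨⟨φ, hφ⟩, hw⟩
    set R := reduceCyclically g.toWord with hR
    set D := reduceCyclically.conjugator g.toWord with hD
    have hdec : D ++ R ++ invRev D = g.toWord :=
      reduceCyclically.conj_conjugator_reduceCyclically g.toWord
    have hg2 : g = mk D * mk R * (mk D)⁻¹ := by
      rw [← mk_toWord (x := g), ← hdec, ← mul_mk, ← mul_mk, ← inv_mk]
    have hRred : IsCyclicallyReduced R := reduceCyclically.isCyclicallyReduced isReduced_toWord
    have hDred : IsReduced D :=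
      H307PP.redsub isReduced_toWord ⟨[], R ++ invRev D, by rw [← hdec]; simp⟩
    have hlen : 2 * D.length + R.length ≤ n := by
      refine le_trans (le_of_eq ?_) hw
      rw [← hdec]
      simp [invRev_length]
      ring
    rw [Finset.mem_coe, hS, Finset.mem_biUnion]
    refine ⟨D.length, Finset.mem_range.2 (by omega), ?_⟩
    rw [Finset.mem_biUnion]
    refine ⟨R.length, Finset.mem_filter.2 ⟨Finset.mem_range.2 (by omega), hlen⟩, ?_⟩
    rw [Finset.mem_image]
    refine ⟨(D, R), Finset.mem_product.2 ⟨H307PP.mem_RR hDred, ?_⟩, hg2.symm⟩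
    rw [Set.Finite.mem_toFinset]
    refine ⟨hRred, rfl, φ.trans (MulAut.conj (mk D)⁻¹), ?_⟩
    rw [MulEquiv.trans_apply, hφ]
    show (mk D)⁻¹ * g * ((mk D)⁻¹)⁻¹ = mk R
    rw [hg2]
    group
  refine ⟨(Finset.finite_toSet _).subset hsub, ?_⟩
  refine (Set.ncard_le_ncard hsub (Finset.finite_toSet _)).trans ?_
  rw [Set.ncard_coe_finset, hS]
  refine Finset.card_biUnion_le.trans (Finset.sum_le_sum fun c _ => ?_)
  refine Finset.card_biUnion_le.trans (Finset.sum_le_sum fun m _ => ?_)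
  refine Finset.card_image_le.trans ?_
  rw [Finset.card_product]
  refine Nat.mul_le_mul ?_ ?_
  · have e1 := H307PP.card_RR (X := Fin r) c
    rwa [Fintype.card_fin] at e1
  · rw [← Set.ncard_eq_toFinset_card _ (lst_finite u m)]
    exact lst_card u m

theorem ball_upper (hr : 2 ≤ r) (u : FreeGroup (Fin r)) (ρ C : ℝ)
    (hρ : Real.sqrt (2 * (r : ℝ) - 1) < ρ) (hC : ∀ n : ℕ, ((cls u n).ncard : ℝ) ≤ C * ρ ^ n)
    (n : ℕ) : ((ball u n).ncard : ℝ) ≤ (2 * r * C) * ((n : ℝ) + 1) ^ 3 * ρ ^ n := by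
  have hne : Nonempty (Fin r) := ⟨⟨0, by omega⟩⟩
  have hr' : (2 : ℝ) ≤ r := by exact_mod_cast hr
  have hq : (0 : ℝ) ≤ 2 * (r : ℝ) - 1 := by linarith
  have h1ρ : 1 ≤ ρ := by
    refine le_trans ?_ hρ.le
    rw [Real.one_le_sqrt]
    linarith
  have hρ2 : 2 * (r : ℝ) - 1 ≤ ρ ^ 2 := by
    have h1 := Real.sq_sqrt hq
    have h2 := Real.sqrt_nonneg (2 * (r : ℝ) - 1)
    nlinarith
  have hC0 : 0 ≤ C := by
    have := hC 0
    rw [pow_zero, mul_one] at this
    exact le_trans (Nat.cast_nonneg _) this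
  have hcast : ((2 * r - 1 : ℕ) : ℝ) = 2 * (r : ℝ) - 1 := by
    rw [Nat.cast_sub (by omega)]; push_cast; ring
  have h1 : ((ball u n).ncard : ℝ) ≤ ((∑ c ∈ Finset.range (n + 1),
      ∑ m ∈ (Finset.range (n + 1)).filter (fun m => 2 * c + m ≤ n),
        (2 * r * (2 * r - 1) ^ c) * ((cls u m).ncard * (m + 1)) : ℕ) : ℝ) := by
    exact_mod_cast (ball_card u n).2
  refine h1.trans ?_
  rw [Nat.cast_sum]
  have h2 : ∀ c ∈ Finset.range (n + 1),
      ((∑ m ∈ (Finset.range (n + 1)).filter (fun m => 2 * c + m ≤ n),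
        (2 * r * (2 * r - 1) ^ c) * ((cls u m).ncard * (m + 1)) : ℕ) : ℝ) ≤
        ((n : ℝ) + 1) * ((2 * r * C) * ((n : ℝ) + 1) * ρ ^ n) := by
    intro c _
    rw [Nat.cast_sum]
    have h3 : ∀ m ∈ (Finset.range (n + 1)).filter (fun m => 2 * c + m ≤ n),
        (((2 * r * (2 * r - 1) ^ c) * ((cls u m).ncard * (m + 1)) : ℕ) : ℝ) ≤
          (2 * r * C) * ((n : ℝ) + 1) * ρ ^ n := by
      intro m hm
      obtain ⟨hm1, hm2⟩ := Finset.mem_filter.1 hm
      have hm3 : m ≤ n := by have := Finset.mem_range.1 hm1; omega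
      rw [Nat.cast_mul, Nat.cast_mul, Nat.cast_mul, Nat.cast_mul, Nat.cast_pow, hcast]
      push_cast
      have e1 : (2 * (r : ℝ) - 1) ^ c ≤ (ρ ^ 2) ^ c := pow_le_pow_left₀ hq hρ2 c
      have e2 : ρ ^ (2 * c + m) ≤ ρ ^ n := pow_le_pow_right₀ h1ρ hm2
      have e3 : (m : ℝ) + 1 ≤ (n : ℝ) + 1 := by
        have : (m : ℝ) ≤ n := by exact_mod_cast hm3
        linarith
      calc 2 * (r : ℝ) * (2 * (r : ℝ) - 1) ^ c * (((cls u m).ncard : ℝ) * ((m : ℝ) + 1))
          ≤ 2 * (r : ℝ) * (ρ ^ 2) ^ c * ((C * ρ ^ m) * ((n : ℝ) + 1)) := by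
            have := hC m
            gcongr
        _ = (2 * r * C) * ((n : ℝ) + 1) * ρ ^ (2 * c + m) := by
            rw [← pow_mul, pow_add]; ring
        _ ≤ _ := by gcongr
    refine (Finset.sum_le_sum h3).trans ?_
    rw [Finset.sum_const, nsmul_eq_mul]
    refine mul_le_mul_of_nonneg_right ?_ (by positivity)
    have : ((Finset.range (n + 1)).filter (fun m => 2 * c + m ≤ n)).card ≤ n + 1 := by
      refine (Finset.card_filter_le _ _).trans ?_
      rw [Finset.card_range]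
    exact_mod_cast this
  refine (Finset.sum_le_sum h2).trans ?_
  rw [Finset.sum_const, nsmul_eq_mul, Finset.card_range]
  push_cast
  apply le_of_eq
  ring

theorem root_upper (a : ℕ → ℝ) (K ρ s : ℝ) (hK : 0 ≤ K) (h0 : ∀ n, 0 ≤ a n) (hρ : 0 < ρ)
    (hs : ρ < s) (ha : ∀ n, a n ≤ K * ((n : ℝ) + 1) ^ 3 * ρ ^ n) :
    ∀ᶠ n : ℕ in atTop, (a n) ^ ((1 : ℝ) / (n : ℝ)) ≤ s := by
  have hs0 : 0 < s := hρ.trans hs
  have h1 : Tendsto (fun n : ℕ => (n : ℝ) ^ 3 * (ρ / s) ^ n) atTop (𝓝 0) := by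
    apply tendsto_pow_const_mul_const_pow_of_abs_lt_one
    rw [abs_of_pos (div_pos hρ hs0), div_lt_one hs0]
    exact hs
  have h2 : Tendsto (fun n : ℕ => (8 * K) * ((n : ℝ) ^ 3 * (ρ / s) ^ n)) atTop (𝓝 0) := by
    simpa using h1.const_mul (8 * K)
  filter_upwards [h2.eventually (gt_mem_nhds (zero_lt_one)), eventually_ge_atTop 1] with n hn hn1
  have hn1' : (1 : ℝ) ≤ n := by exact_mod_cast hn1
  have h3 : a n ≤ s ^ n := by
    refine (ha n).trans ?_
    have e1 : ((n : ℝ) + 1) ^ 3 ≤ (2 * (n : ℝ)) ^ 3 := by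
      apply pow_le_pow_left₀ (by positivity)
      linarith
    have e2 : K * ((n : ℝ) + 1) ^ 3 * ρ ^ n ≤ (8 * K) * ((n : ℝ) ^ 3 * (ρ / s) ^ n) * s ^ n := by
      rw [div_pow]
      have : (8 * K) * ((n : ℝ) ^ 3 * (ρ ^ n / s ^ n)) * s ^ n = K * (2 * (n : ℝ)) ^ 3 * ρ ^ n := by
        field_simp
        ring
      rw [this]
      gcongr
    refine e2.trans ?_
    have : 0 < s ^ n := by positivity
    nlinarith
  have hn0 : (n : ℝ) ≠ 0 := by positivity
  calc (a n) ^ ((1 : ℝ) / (n : ℝ)) ≤ (s ^ n) ^ ((1 : ℝ) / (n : ℝ)) :=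
        Real.rpow_le_rpow (h0 n) h3 (by positivity)
    _ = s := by
        rw [← Real.rpow_natCast, ← Real.rpow_mul hs0.le, mul_one_div_cancel hn0, Real.rpow_one]

theorem root_lower (a : ℕ → ℝ) (b ε : ℝ) (hb : 1 < b) (hε : 0 < ε) (h0 : ∀ n, 0 ≤ a n) (m : ℕ)
    (ha : ∀ c : ℕ, (b ^ 2) ^ c ≤ a (m + 2 * (c + 1))) :
    ∃ᶠ n : ℕ in atTop, b - ε ≤ (a n) ^ ((1 : ℝ) / (n : ℝ)) := by
  by_cases hbe : b - ε ≤ 0
  · refine Filter.Eventually.frequently (Eventually.of_forall fun n => ?_)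
    exact hbe.trans (Real.rpow_nonneg (h0 n) _)
  push Not at hbe
  have hb0 : 0 < b := by linarith
  have h1 : Tendsto (fun n : ℕ => ((b - ε) / b) ^ n) atTop (𝓝 0) := by
    apply tendsto_pow_atTop_nhds_zero_of_lt_one (by positivity)
    rw [div_lt_one hb0]
    linarith
  have h2 : ∀ᶠ n : ℕ in atTop, ((b - ε) / b) ^ n < (b ^ (m + 2))⁻¹ :=
    h1.eventually (gt_mem_nhds (by positivity))
  obtain ⟨N, hN⟩ := eventually_atTop.1 h2
  rw [frequently_atTop]
  intro M
  set c := N + M with hc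
  refine ⟨m + 2 * (c + 1), by omega, ?_⟩
  set n := m + 2 * (c + 1) with hn
  have h3 := hN n (by omega)
  have hn0 : (n : ℝ) ≠ 0 := by
    have : n ≠ 0 := by omega
    exact_mod_cast this
  have h4 : (b - ε) ^ n ≤ a n := by
    refine le_trans ?_ (ha c)
    rw [div_pow, div_lt_iff₀ (by positivity)] at h3
    have h5 : (b ^ (m + 2))⁻¹ * b ^ n = (b ^ 2) ^ c := by
      have : n = (m + 2) + 2 * c := by omega
      rw [this, pow_add b (m + 2) (2 * c), ← pow_mul]
      field_simp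
    rw [← h5]
    exact h3.le
  calc b - ε = ((b - ε) ^ n) ^ ((1 : ℝ) / (n : ℝ)) := by
        rw [← Real.rpow_natCast, ← Real.rpow_mul hbe.le, mul_one_div_cancel hn0, Real.rpow_one]
    _ ≤ _ := Real.rpow_le_rpow (by positivity) h4 (by positivity)

/-- The conclusion of the frozen statement for `u`. -/
def Concl (r : ℕ) (u : FreeGroup (Fin r)) : Prop :=
  ∀ ε : ℝ, 0 < ε →
    (∀ᶠ n : ℕ in atTop,
      ((Set.ncard {v : FreeGroup (Fin r) |
          (∃ φ : FreeGroup (Fin r) ≃* FreeGroup (Fin r), φ u = v) ∧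
            (FreeGroup.toWord v).length ≤ n} : ℝ) ^ ((1 : ℝ) / (n : ℝ)))
        ≤ Real.sqrt (2 * (r : ℝ) - 1) + ε) ∧
    (∃ᶠ n : ℕ in atTop,
      Real.sqrt (2 * (r : ℝ) - 1) - ε ≤
      ((Set.ncard {v : FreeGroup (Fin r) |
          (∃ φ : FreeGroup (Fin r) ≃* FreeGroup (Fin r), φ u = v) ∧
            (FreeGroup.toWord v).length ≤ n} : ℝ) ^ ((1 : ℝ) / (n : ℝ))))

theorem concl_of_cls (hr : 2 ≤ r) (u : FreeGroup (Fin r)) (hu : u ≠ 1)
    (h : ∀ ρ : ℝ, Real.sqrt (2 * (r : ℝ) - 1) < ρ → ∃ C : ℝ, ∀ n : ℕ,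
      ((cls u n).ncard : ℝ) ≤ C * ρ ^ n) : Concl r u := by
  have hne : Nonempty (Fin r) := ⟨⟨0, by omega⟩⟩
  have hr' : (2 : ℝ) ≤ r := by exact_mod_cast hr
  intro ε hε
  set b := Real.sqrt (2 * (r : ℝ) - 1) with hb
  have hb2 : b ^ 2 = 2 * (r : ℝ) - 1 := Real.sq_sqrt (by linarith)
  have hb1 : 1 < b := by
    rw [hb]
    exact Real.lt_sqrt_of_sq_lt (by linarith)
  have hcast : ((2 * r - 1 : ℕ) : ℝ) = 2 * (r : ℝ) - 1 := by
    rw [Nat.cast_sub (by omega)]; push_cast; ring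
  constructor
  · obtain ⟨C, hC⟩ := h (b + ε / 2) (by linarith)
    have hC0 : 0 ≤ C := by
      have := hC 0
      rw [pow_zero, mul_one] at this
      exact le_trans (Nat.cast_nonneg _) this
    refine root_upper (fun n => ((ball u n).ncard : ℝ)) (2 * r * C) (b + ε / 2) (b + ε)
      (by positivity) (fun n => Nat.cast_nonneg _) (by linarith) (by linarith) ?_
    intro n
    exact ball_upper hr u (b + ε / 2) C (by linarith) hC n
  · set R := reduceCyclically u.toWord with hR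
    set D := reduceCyclically.conjugator u.toWord with hD
    have hdec : D ++ R ++ invRev D = u.toWord :=
      reduceCyclically.conj_conjugator_reduceCyclically u.toWord
    have hu2 : u = mk D * mk R * (mk D)⁻¹ := by
      rw [← mk_toWord (x := u), ← hdec, ← mul_mk, ← mul_mk, ← inv_mk]
    have hRc : IsCyclicallyReduced R := reduceCyclically.isCyclicallyReduced isReduced_toWord
    have hRne : R ≠ [] := by
      intro h
      apply hu
      rw [hu2, h, ← one_eq_mk]; group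
    refine root_lower (fun n => ((ball u n).ncard : ℝ)) b ε hb1 hε (fun n => Nat.cast_nonneg _)
      R.length ?_
    intro c
    obtain ⟨_, h2⟩ := H307AO.conj_lower (Y := Fin r) (by simpa using hr) R hRc hRne c
    rw [Fintype.card_fin] at h2
    have h3 : {w : FreeGroup (Fin r) | (∃ f : FreeGroup (Fin r), w = f * mk R * f⁻¹) ∧
        w.norm = R.length + 2 * (c + 1)} ⊆ ball u (R.length + 2 * (c + 1)) := by
      rintro w ⟨⟨f, rfl⟩, hw⟩
      refine ⟨⟨MulAut.conj (f * (mk D)⁻¹), ?_⟩, le_of_eq hw⟩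
      rw [MulAut.conj_apply, hu2]; group
    have h4 := h2.trans (Set.ncard_le_ncard h3 (ball_card _ _).1)
    rw [hb2, ← hcast]
    exact_mod_cast h4

end PWF
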